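import Pool.Agent.H33R3.Bom.Stmts

set_option autoImplicit false

namespace Pool.Agent.H6R3.Bom

open Complex Metric Set Filter Topology Pool.Agent.H33R3.Bom

theorem norm_pow_sub {z : ℂ} {r : ℝ} (hz : ‖z‖ = r) :
    ‖z ^ 4 - (r : ℂ) ^ 4‖ = 4 * r ^ 2 * |z.re * z.im| := by
  have h1 : ((r : ℂ)) ^ 2 = z * (starRingEnd ℂ) z := by
    rw [Complex.mul_conj, Complex.normSq_eq_norm_sq, hz]; push_cast; ring
  have h2 : z ^ 4 - (r : ℂ) ^ 4 = z ^ 2 * (z + (starRingEnd ℂ) z) * (z - (starRingEnd ℂ) z) := by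
    have : (r : ℂ) ^ 4 = (z * (starRingEnd ℂ) z) ^ 2 := by rw [← h1]; ring
    rw [this]; ring
  rw [h2, Complex.add_conj, Complex.sub_conj]
  rw [norm_mul, norm_mul, norm_pow, hz]
  simp only [norm_mul, Complex.norm_real, Complex.norm_I, Real.norm_eq_abs, abs_mul, mul_one]
  norm_num
  ring

theorem taskG : TaskG := by
  intro hep hb Y hY z₀ hz₀
  set U : ℂ → ℂ := fun z => hh Y z + (starRingEnd ℂ) (hh Y ((starRingEnd ℂ) z)) with hU
  have hball : ball (0 : ℂ) 1 ∈ 𝓝 (0 : ℂ) := ball_mem_nhds _ one_pos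
  have hhd : DifferentiableOn ℂ (hh Y) (ball 0 1) := by
    have h1 : DifferentiableOn ℂ (dslope Y 0) (ball 0 1) :=
      (Complex.differentiableOn_dslope hball).2 hY.diff
    exact h1.add differentiableOn_id
  have hUd : DifferentiableOn ℂ U (ball 0 1) := by
    refine hhd.add ?_
    intro z hz
    have h1 : DifferentiableAt ℂ (hh Y) ((starRingEnd ℂ) z) := by
      apply (hhd _ _).differentiableAt
      · apply isOpen_ball.mem_nhds
        rw [mem_ball_zero_iff] at hz ⊢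
        rwa [Complex.norm_conj]
      · rw [mem_ball_zero_iff] at hz ⊢
        rwa [Complex.norm_conj]
    have h2 := h1.conj_conj
    have h3 : DifferentiableAt ℂ ((starRingEnd ℂ) ∘ (hh Y) ∘ (starRingEnd ℂ)) z := by
      have := h2
      simpa using this
    exact h3.differentiableWithinAt
  have hz₀' : ‖z₀‖ < 1 := by simpa using hz₀
  have hρ0 := norm_nonneg z₀
  obtain ⟨r, hr⟩ : ∃ r : ℝ, r = (1 + ‖z₀‖) / 2 := ⟨_, rfl⟩
  have hr1 : r < 1 := by rw [hr]; linarith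
  have hrρ : ‖z₀‖ < r := by rw [hr]; linarith
  have hr2 : 1 / 2 ≤ r := by rw [hr]; linarith
  have hr0 : 0 < r := by linarith
  have hep0 := hep Y hY
  have h1r : 0 < 1 - r ^ 2 := by nlinarith
  -- the function
  have hgd : DifferentiableOn ℂ (fun z => U z * (z ^ 4 - (r : ℂ) ^ 4)) (ball 0 1) :=
    hUd.mul ((differentiableOn_pow 4).sub (differentiableOn_const _))
  have hcl : DiffContOnCl ℂ (fun z => U z * (z ^ 4 - (r : ℂ) ^ 4)) (ball 0 r) := by
    apply DifferentiableOn.diffContOnCl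
    apply hgd.mono
    rw [closure_ball _ hr0.ne']
    exact closedBall_subset_ball hr1
  have hmax := Complex.norm_le_of_forall_mem_frontier_norm_le (U := ball (0 : ℂ) r)
    isBounded_ball hcl (C := 16 * ep Y / (1 - r ^ 2) ^ 2) (by
      intro z hz
      rw [frontier_ball _ hr0.ne', mem_sphere_zero_iff_norm] at hz
      have hzb : z ∈ ball (0 : ℂ) 1 := by rw [mem_ball_zero_iff, hz]; exact hr1
      have h := hb Y hY z hzb
      rw [hz] at h
      rw [norm_mul, norm_pow_sub hz, le_div_iff₀ (by positivity)]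
      have hUn : ‖U z‖ = ‖hh Y z + (starRingEnd ℂ) (hh Y ((starRingEnd ℂ) z))‖ := rfl
      rw [hUn]
      have h5 : 0 ≤ ‖hh Y z + (starRingEnd ℂ) (hh Y ((starRingEnd ℂ) z))‖ * |z.re * z.im| *
          (1 - r ^ 2) ^ 2 := by positivity
      have h6 : r ^ 2 ≤ 1 := by nlinarith
      nlinarith [h, h5, h6]) (z := z₀) (by
      rw [closure_ball _ hr0.ne', mem_closedBall_zero_iff]; exact hrρ.le)
  simp only [norm_mul] at hmax
  have h7 : (1 - ‖z₀‖) / 16 ≤ ‖z₀ ^ 4 - (r : ℂ) ^ 4‖ := by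
    have h8 : r ^ 4 - ‖z₀‖ ^ 4 ≤ ‖z₀ ^ 4 - (r : ℂ) ^ 4‖ := by
      have := norm_sub_norm_le ((r : ℂ) ^ 4) (z₀ ^ 4)
      rw [norm_sub_rev] at this
      simpa [norm_pow, abs_of_pos hr0] using this
    refine le_trans ?_ h8
    have h9 : r ^ 4 - ‖z₀‖ ^ 4 = (r - ‖z₀‖) * ((r + ‖z₀‖) * (r ^ 2 + ‖z₀‖ ^ 2)) := by ring
    rw [h9]
    have h10 : r - ‖z₀‖ = (1 - ‖z₀‖) / 2 := by rw [hr]; ring
    rw [h10]
    have h11 : (1 : ℝ) / 8 ≤ (r + ‖z₀‖) * (r ^ 2 + ‖z₀‖ ^ 2) := by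
      have h12 : (1 : ℝ) / 2 ≤ r + ‖z₀‖ := by linarith
      have h13 : (1 : ℝ) / 4 ≤ r ^ 2 + ‖z₀‖ ^ 2 := by nlinarith
      nlinarith
    nlinarith
  have h14 : 3 * (1 - ‖z₀‖) / 4 ≤ 1 - r ^ 2 := by
    rw [hr]; nlinarith
  have hUn : ‖U z₀‖ = ‖hh Y z₀ + (starRingEnd ℂ) (hh Y ((starRingEnd ℂ) z₀))‖ := rfl
  rw [← hUn]
  have hd : 0 < 1 - ‖z₀‖ := by linarith
  set d := 1 - ‖z₀‖ with hdd
  have h15 : ‖U z₀‖ * (d / 16) ≤ 16 * ep Y / (1 - r ^ 2) ^ 2 :=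
    le_trans (mul_le_mul_of_nonneg_left h7 (norm_nonneg _)) hmax
  have h16 : 16 * ep Y / (1 - r ^ 2) ^ 2 ≤ 16 * ep Y / (3 * d / 4) ^ 2 := by
    apply div_le_div_of_nonneg_left (by positivity) (by positivity)
    exact pow_le_pow_left₀ (by positivity) h14 2
  have h17 := h15.trans h16
  rw [le_div_iff₀ (by positivity)] at h17
  have h18 : ‖U z₀‖ * (d / 16) * (3 * d / 4) ^ 2 = ‖U z₀‖ * d ^ 3 * (9 / 256) := by ring
  rw [h18] at h17
  nlinarith [h17, hep0]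

end Pool.Agent.H6R3.Bom
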